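import Pool.Agent.Run7.h166.FC.Window

/-!
# The number of digits
-/

set_option autoImplicit false
set_option maxHeartbeats 4000000

open Finset Real

namespace Pool.Agent.Run7.h166.FC

lemma log_phi_pos : 0 < Real.log goldenRatio := Real.log_pos one_lt_goldenRatio

lemma log_phi_le : Real.log goldenRatio ≤ Real.log 2 :=
  Real.log_le_log goldenRatio_pos goldenRatio_lt_two.le

lemma log_305 : Real.log 305 ≤ 9 * Real.log 2 := by
  have : Real.log 305 ≤ Real.log (2 ^ 9) := Real.log_le_log (by norm_num) (by norm_num)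
  rwa [Real.log_pow] at this

lemma one_le_log_four : 1 ≤ 2 * Real.log 2 := by
  have := Real.log_two_gt_d9
  linarith

/-- numbers less than `M` -/
lemma digits1 {n M : ℕ} (hn : 2 ≤ n) (hM : IsFL n M) (N : ℕ) (hN0 : 0 < N) (hNM : N < M)
    (hg : 2 * Nat.gcd M N ≤ M) :
    Real.log goldenRatio / 24 * n / Real.log ((M : ℝ) / Nat.gcd M N) ≤ (N.zeckendorf.length : ℝ) := by
  have h1 := partC2 (by omega) hM N hN0 hNM
  obtain ⟨k, hk⟩ : ∃ k, k = N.zeckendorf.length := ⟨_, rfl⟩
  rw [← hk] at h1 ⊢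
  obtain ⟨g, hgg⟩ : ∃ g, g = Nat.gcd M N := ⟨_, rfl⟩
  rw [← hgg] at h1 hg ⊢
  have hg0 : 0 < g := by rw [hgg]; exact Nat.gcd_pos_of_pos_right _ hN0
  have hgr : (0 : ℝ) < g := by exact_mod_cast hg0
  have hD : (2 : ℝ) ≤ (M : ℝ) / g := by
    rw [le_div_iff₀ hgr]; exact_mod_cast hg
  have hlog : Real.log 2 ≤ Real.log ((M : ℝ) / g) := Real.log_le_log (by norm_num) hD
  have hlog0 : 0 < Real.log ((M : ℝ) / g) := lt_of_lt_of_le (Real.log_pos (by norm_num)) hlog
  have hk1 : 1 ≤ k := by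
    by_contra h
    have : k = 0 := by omega
    rw [this] at hk
    have h2 := Nat.sum_zeckendorf_fib N
    rw [List.length_eq_zero_iff.1 hk.symm] at h2
    simp at h2
    omega
  obtain ⟨t, ht⟩ : ∃ t, t = (n + 1) / (k + 1) := ⟨_, rfl⟩
  rw [← ht] at h1
  have h2 : goldenRatio ^ t ≤ 305 * ((M : ℝ) / g) ^ 2 := by
    rw [div_pow (M : ℝ) (g : ℝ) 2, ← mul_div_assoc, le_div_iff₀ (by positivity)]
    exact h1
  have h3 : (t : ℝ) * Real.log goldenRatio ≤ Real.log 305 + 2 * Real.log ((M : ℝ) / g) := by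
    have := Real.log_le_log (pow_pos goldenRatio_pos _) h2
    rw [Real.log_pow, Real.log_mul (by norm_num) (by positivity), Real.log_pow] at this
    exact_mod_cast this
  have h4 : (n : ℝ) ≤ (t + 1) * (2 * k) := by
    have h5 : n + 1 < (k + 1) * (t + 1) := by
      have := Nat.lt_mul_div_succ (n + 1) (show 0 < k + 1 by omega)
      rwa [← ht] at this
    have h6 : (k + 1) * (t + 1) ≤ (2 * k) * (t + 1) := Nat.mul_le_mul_right _ (by omega)
    have h7 : n ≤ (t + 1) * (2 * k) := by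
      rw [mul_comm (t + 1)]; omega
    exact_mod_cast h7
  rw [div_le_iff₀ hlog0]
  have hφ := log_phi_pos
  have h8 : (t + 1 : ℝ) * Real.log goldenRatio ≤ 12 * Real.log ((M : ℝ) / g) := by
    have := log_305
    have := log_phi_le
    linarith
  have h9 : (n : ℝ) * Real.log goldenRatio ≤ 2 * k * (12 * Real.log ((M : ℝ) / g)) := by
    calc (n : ℝ) * Real.log goldenRatio ≤ (t + 1) * (2 * k) * Real.log goldenRatio :=
          mul_le_mul_of_nonneg_right h4 hφ.le
      _ = 2 * k * ((t + 1) * Real.log goldenRatio) := by ring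
      _ ≤ _ := mul_le_mul_of_nonneg_left h8 (by positivity)
  linarith

/-- all numbers -/
lemma digits2 {n M : ℕ} (hn : 2 ≤ n) (hM : IsFL n M) (N : ℕ) (hnd : ¬ M ∣ N)
    (hg : 2 * Nat.gcd M N ≤ M) :
    Real.log goldenRatio / 24 * n / Real.log (n * ((M : ℝ) / Nat.gcd M N)) ≤ (N.zeckendorf.length : ℝ) := by
  have hN0 : 0 < N := by
    rcases Nat.eq_zero_or_pos N with h | h
    · exact absurd (h ▸ dvd_zero M) hnd
    · exact h
  have hsum : ∑ i ∈ N.zeckendorf.toFinset, ((fun _ => (1 : ℤ)) i * (Nat.fib i : ℤ) +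
      (fun _ => (0 : ℤ)) i * Nat.fib (i + 1)) = N := by
    conv_rhs => rw [← zeck_sum N]
    push_cast
    exact sum_congr rfl fun i _ => by ring
  have h1 := partA (by omega) hM N.zeckendorf.toFinset (fun _ => 1) (fun _ => 0)
    (by rw [hsum]; exact_mod_cast hnd)
  rw [hsum] at h1
  have e : Int.gcd (M : ℤ) (N : ℤ) = Nat.gcd M N := Int.gcd_natCast_natCast M N
  have hcard : N.zeckendorf.toFinset.card = N.zeckendorf.length := List.toFinset_card_of_nodup (zeck_nodup N)
  obtain ⟨k, hk⟩ : ∃ k, k = N.zeckendorf.length := ⟨_, rfl⟩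
  have e2 : ∑ i ∈ N.zeckendorf.toFinset, (|((fun _ => 1 : ℕ → ℤ) i : ℝ)| + 2 * |((fun _ => 0 : ℕ → ℤ) i : ℝ)|) = (k : ℝ) := by
    simp [hcard, hk]
  rw [e, e2, hcard, ← hk] at h1
  rw [← hk]
  obtain ⟨g, hgg⟩ : ∃ g, g = Nat.gcd M N := ⟨_, rfl⟩
  rw [← hgg] at h1 hg ⊢
  have hg0 : 0 < g := by rw [hgg]; exact Nat.gcd_pos_of_pos_right _ hN0
  have hgr : (0 : ℝ) < g := by exact_mod_cast hg0
  have hD : (2 : ℝ) ≤ (M : ℝ) / g := by
    rw [le_div_iff₀ hgr]; exact_mod_cast hg
  have hlog : Real.log 2 ≤ Real.log ((M : ℝ) / g) := Real.log_le_log (by norm_num) hD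
  have hlog0 : 0 < Real.log ((M : ℝ) / g) := lt_of_lt_of_le (Real.log_pos (by norm_num)) hlog
  have hnr : (2 : ℝ) ≤ n := by exact_mod_cast hn
  have hlogn : Real.log 2 ≤ Real.log n := Real.log_le_log (by norm_num) hnr
  have hT : Real.log (n * ((M : ℝ) / g)) = Real.log n + Real.log ((M : ℝ) / g) :=
    Real.log_mul (by positivity) (by positivity)
  have h4 := one_le_log_four
  have hφ := log_phi_pos
  have hφ2 := log_phi_le
  have hl2 : Real.log 2 < 1 := by have := Real.log_two_lt_d9; linarith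
  rw [hT, div_le_iff₀ (by linarith)]
  have hk1 : 1 ≤ k := by
    by_contra h
    have : k = 0 := by omega
    rw [this] at hk
    have h2 := Nat.sum_zeckendorf_fib N
    rw [List.length_eq_zero_iff.1 hk.symm] at h2
    simp at h2
    omega
  have hk1r : (1 : ℝ) ≤ k := by exact_mod_cast hk1
  rcases le_or_gt n k with hnk | hnk
  · have hnkr : (n : ℝ) ≤ k := by exact_mod_cast hnk
    have a1 : Real.log goldenRatio / 24 * n ≤ 1 * k := mul_le_mul (by linarith) hnkr (by linarith) zero_le_one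
    have a2 : (k : ℝ) * 1 ≤ k * (Real.log n + Real.log ((M : ℝ) / g)) :=
      mul_le_mul_of_nonneg_left (by linarith) (by linarith)
    linarith
  · have hMr : goldenRatio ^ (n - 2) ≤ (M : ℝ) := by
      have t := golden_le_fib (n - 2)
      rw [Nat.sub_add_cancel hn] at t
      exact t.trans (by exact_mod_cast fib_le_of hM)
    have hMlog : ((n : ℝ) - 2) * Real.log goldenRatio ≤ Real.log M := by
      have := Real.log_le_log (pow_pos goldenRatio_pos _) hMr
      rw [Real.log_pow] at this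
      have e3 : ((n - 2 : ℕ) : ℝ) = n - 2 := by push_cast [Nat.cast_sub hn]; ring
      rwa [e3] at this
    have hMpos : (0 : ℝ) < M := lt_of_lt_of_le (pow_pos goldenRatio_pos _) hMr
    have hglog : Real.log g ≤ Real.log (2 * k) + ((n : ℝ) - n / (2 * k)) * Real.log goldenRatio := by
      have := Real.log_le_log hgr h1
      rw [Real.log_mul (by positivity) (rpow_pos_of_pos goldenRatio_pos _).ne', Real.log_rpow goldenRatio_pos] at this
      exact this
    have hDlog : Real.log ((M : ℝ) / g) = Real.log M - Real.log g := Real.log_div hMpos.ne' hgr.ne'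
    have hnkr : (k : ℝ) ≤ n := by exact_mod_cast hnk.le
    have h2k : Real.log (2 * k) ≤ 2 * Real.log n := by
      have : Real.log (2 * k) ≤ Real.log (n ^ 2) := by
        apply Real.log_le_log (by positivity)
        nlinarith
      rwa [Real.log_pow] at this
    have h5 : (n : ℝ) / (2 * k) * Real.log goldenRatio ≤ 4 * (Real.log n + Real.log ((M : ℝ) / g)) := by
      have e5 : ((n : ℝ) - n / (2 * k)) * Real.log goldenRatio =
        n * Real.log goldenRatio - (n : ℝ) / (2 * k) * Real.log goldenRatio := by ring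
      rw [e5] at hglog
      have e6 : ((n : ℝ) - 2) * Real.log goldenRatio = n * Real.log goldenRatio - 2 * Real.log goldenRatio := by ring
      rw [e6] at hMlog
      linarith
    have h6 : (n : ℝ) * Real.log goldenRatio ≤ 8 * k * (Real.log n + Real.log ((M : ℝ) / g)) := by
      have : (n : ℝ) * Real.log goldenRatio = 2 * k * ((n : ℝ) / (2 * k) * Real.log goldenRatio) := by
        field_simp
      rw [this]
      have h7 := mul_le_mul_of_nonneg_left h5 (by positivity : (0 : ℝ) ≤ 2 * k)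
      linarith
    have h8 : 0 ≤ (k : ℝ) * (Real.log n + Real.log ((M : ℝ) / g)) := mul_nonneg (by linarith) (by linarith)
    nlinarith

lemma two_gcd_le {M N : ℕ} (hM : 0 < M) (hnd : ¬ M ∣ N) : 2 * Nat.gcd M N ≤ M := by
  obtain ⟨q, hq⟩ := Nat.gcd_dvd_left M N
  have hq1 : q ≠ 1 := by
    intro h
    rw [h, mul_one] at hq
    apply hnd
    rw [hq]
    exact Nat.gcd_dvd_right _ _
  have hq0 : q ≠ 0 := by
    intro h
    rw [h, mul_zero] at hq
    omega
  have : 2 ≤ q := by omega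
  calc 2 * Nat.gcd M N ≤ q * Nat.gcd M N := Nat.mul_le_mul_right _ this
    _ = M := by rw [mul_comm]; exact hq.symm

/-- **The number of digits.** -/
theorem partD : ∃ c : ℝ, 0 < c ∧ ∀ n : ℕ, 2 ≤ n → ∀ M : ℕ, IsFL n M → ∀ N : ℕ, ¬ M ∣ N →
    c * n / Real.log (n * ((M : ℝ) / Nat.gcd M N)) ≤ (N.zeckendorf.length : ℝ) ∧
    (N < M → c * n / Real.log ((M : ℝ) / Nat.gcd M N) ≤ (N.zeckendorf.length : ℝ)) := by
  refine ⟨Real.log goldenRatio / 24, div_pos log_phi_pos (by norm_num), fun n hn M hM N hnd => ?_⟩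
  have hM0 : 0 < M := lt_of_lt_of_le (Nat.fib_pos.2 (by omega)) (fib_le_of hM)
  have hN0 : 0 < N := by
    rcases Nat.eq_zero_or_pos N with h | h
    · exact absurd (h ▸ dvd_zero M) hnd
    · exact h
  exact ⟨digits2 hn hM N hnd (two_gcd_le hM0 hnd), fun hNM => digits1 hn hM N hN0 hNM (two_gcd_le hM0 hnd)⟩

end Pool.Agent.Run7.h166.FC
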