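import Pool.Agent.Run7.h166.FC.Ring

/-!
# The norm of the rotated sum
-/

set_option autoImplicit false
set_option maxHeartbeats 4000000

open Finset Real

namespace Pool.Agent.Run7.h166.FC

lemma sign_abs {ε : ℤ} (h : ε = 1 ∨ ε = -1) : |(ε : ℝ)| = 1 := by
  rcases h with h | h <;> rw [h] <;> simp

/-- **The core**: a common divisor of `M` and of the sum is bounded by the norm of the rotated sum. -/
theorem core {n M : ℕ} (hn : 0 < n) (hM : IsFL n M) (S : Finset ℕ) (x x' : ℕ → ℤ) (c : ℕ)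
    (hnd : ¬ (M : ℤ) ∣ ∑ i ∈ S, (x i * Nat.fib i + x' i * Nat.fib (i + 1))) :
    (Int.gcd M (∑ i ∈ S, (x i * Nat.fib i + x' i * Nat.fib (i + 1))) : ℝ) ^ 2 ≤
      (∑ i ∈ S, (|(x i : ℝ)| + 2 * |(x' i : ℝ)|) *
        (goldenRatio ^ ((c + i) % (2 * n)) + goldenRatio ^ ((c + (2 * n - 1) * i) % (2 * n)))) *
      (∑ i ∈ S, (|(x i : ℝ)| + 2 * |(x' i : ℝ)|) *
        (|goldenConj| ^ ((c + i) % (2 * n)) + |goldenConj| ^ ((c + (2 * n - 1) * i) % (2 * n)))) := by
  set N : ℤ := ∑ i ∈ S, (x i * Nat.fib i + x' i * Nat.fib (i + 1)) with hN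
  have hex1 : ∀ i : ℕ, ∃ ε : ℤ, (ε = 1 ∨ ε = -1) ∧
      ((M : ℤ) : R) ∣ om ^ c * om ^ i - (ε : R) * om ^ ((c + i) % (2 * n)) := by
    intro i
    obtain ⟨ε, h1, h2⟩ := red hn hM (c + i)
    rw [pow_add] at h2
    exact ⟨ε, h1, h2⟩
  choose ε hε hεd using hex1
  choose ε' hε' hεd' using fun i => red' hn hM c i
  obtain ⟨X, hX⟩ : ∃ X : R, X = ∑ i ∈ S, (((x i : R) + x' i * om) * ((ε i : R) * om ^ ((c + i) % (2 * n))) -
      ((x i : R) + x' i * om') * ((ε' i : R) * om ^ ((c + (2 * n - 1) * i) % (2 * n)))) := ⟨_, rfl⟩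
  have hcong : ((M : ℤ) : R) ∣ om ^ c * (r5 * (N : R)) - X := by
    have e : om ^ c * (r5 * (N : R)) - X =
        ∑ i ∈ S, (((x i : R) + x' i * om) * (om ^ c * om ^ i - (ε i : R) * om ^ ((c + i) % (2 * n))) -
          ((x i : R) + x' i * om') * (om ^ c * om' ^ i - (ε' i : R) * om ^ ((c + (2 * n - 1) * i) % (2 * n)))) := by
      rw [hX, hN]
      push_cast
      rw [mul_sum, mul_sum, ← sum_sub_distrib]
      refine sum_congr rfl fun i _ => ?_
      have := blockR (x i) (x' i) i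
      push_cast at this
      rw [this]
      ring
    rw [e]
    exact dvd_sum fun i _ => dvd_sub (Dvd.dvd.mul_left (hεd i) _) (Dvd.dvd.mul_left (hεd' i) _)
  -- `X ≠ 0`
  have hX0 : X ≠ 0 := by
    intro h0
    rw [h0, sub_zero] at hcong
    apply hnd
    have h1 : ((M : ℤ) : R) ∣ om' ^ c * (om ^ c * (r5 * (N : R))) := Dvd.dvd.mul_left hcong _
    have h2 : om' ^ c * (om ^ c * (r5 * (N : R))) = (-1) ^ c * (r5 * (N : R)) := by
      rw [← om_mul_om', mul_pow]; ring
    rw [h2] at h1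
    have h3 : ((M : ℤ) : R) ∣ r5 * (N : R) := by
      have h4 := Dvd.dvd.mul_left h1 ((-1) ^ c)
      rw [← mul_assoc, ← mul_pow] at h4
      simpa using h4
    have h5 := ((dvd_iff' _ _).1 h3).1
    have h6 : (r5 * (N : R)).re = -N := by
      simp [r5, om, om']
    rw [h6] at h5
    exact (Int.dvd_neg).1 h5
  -- the gcd divides `X`
  obtain ⟨d, hd⟩ : ∃ d : ℕ, d = Int.gcd M N := ⟨_, rfl⟩
  have hdX : ((d : ℤ) : R) ∣ X := by
    have h1 : ((d : ℤ) : R) ∣ ((M : ℤ) : R) := by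
      rw [hd]; exact (Int.castRingHom R).map_dvd (Int.gcd_dvd_left _ _)
    have h2 : ((d : ℤ) : R) ∣ (N : R) := by
      rw [hd]; exact (Int.castRingHom R).map_dvd (Int.gcd_dvd_right _ _)
    have h3 : ((d : ℤ) : R) ∣ om ^ c * (r5 * (N : R)) := Dvd.dvd.mul_left (Dvd.dvd.mul_left h2 _) _
    have h4 := dvd_sub h3 (h1.trans hcong)
    rwa [sub_sub_cancel] at h4
  have hnz : nrm X ≠ 0 := fun h => hX0 (eq_zero_of_nrm h)
  have hle : (d : ℤ) ^ 2 ≤ |nrm X| := Int.le_of_dvd (abs_pos.2 hnz) ((dvd_abs _ _).2 (sq_dvd_nrm hdX))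
  have hler : (d : ℝ) ^ 2 ≤ |e1 X| * |e2 X| := by
    rw [← abs_mul, ← nrm_eq]
    exact_mod_cast hle
  -- the two absolute values
  have b1 : |e1 X| ≤ ∑ i ∈ S, (|(x i : ℝ)| + 2 * |(x' i : ℝ)|) *
        (goldenRatio ^ ((c + i) % (2 * n)) + goldenRatio ^ ((c + (2 * n - 1) * i) % (2 * n))) := by
    rw [hX, map_sum]
    refine (abs_sum_le_sum_abs _ _).trans (sum_le_sum fun i _ => ?_)
    simp only [map_sub, map_mul, map_add, map_intCast, map_pow, e1_om, e1_om']
    have t1 := abs_sub (((x i : ℝ) + x' i * goldenRatio) * ((ε i : ℝ) * goldenRatio ^ ((c + i) % (2 * n))))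
      (((x i : ℝ) + x' i * goldenConj) * ((ε' i : ℝ) * goldenRatio ^ ((c + (2 * n - 1) * i) % (2 * n))))
    have t2 : |(x i : ℝ) + x' i * goldenRatio| ≤ |(x i : ℝ)| + 2 * |(x' i : ℝ)| := by
      refine (abs_add_le _ _).trans ?_
      rw [abs_mul, abs_of_pos goldenRatio_pos]
      nlinarith [abs_nonneg (x' i : ℝ), goldenRatio_lt_two]
    have t3 : |(x i : ℝ) + x' i * goldenConj| ≤ |(x i : ℝ)| + 2 * |(x' i : ℝ)| := by
      refine (abs_add_le _ _).trans ?_
      rw [abs_mul, abs_of_neg goldenConj_neg]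
      nlinarith [abs_nonneg (x' i : ℝ), neg_one_lt_goldenConj]
    rw [abs_mul, abs_mul, abs_mul, abs_mul, sign_abs (hε i), sign_abs (hε' i), one_mul, one_mul,
      abs_of_pos (pow_pos goldenRatio_pos _), abs_of_pos (pow_pos goldenRatio_pos _)] at t1
    refine t1.trans ?_
    rw [mul_add]
    exact add_le_add (mul_le_mul_of_nonneg_right t2 (pow_pos goldenRatio_pos _).le)
      (mul_le_mul_of_nonneg_right t3 (pow_pos goldenRatio_pos _).le)
  have b2 : |e2 X| ≤ ∑ i ∈ S, (|(x i : ℝ)| + 2 * |(x' i : ℝ)|) *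
        (|goldenConj| ^ ((c + i) % (2 * n)) + |goldenConj| ^ ((c + (2 * n - 1) * i) % (2 * n))) := by
    rw [hX, map_sum]
    refine (abs_sum_le_sum_abs _ _).trans (sum_le_sum fun i _ => ?_)
    simp only [map_sub, map_mul, map_add, map_intCast, map_pow, e2_om, e2_om']
    have t1 := abs_sub (((x i : ℝ) + x' i * goldenConj) * ((ε i : ℝ) * goldenConj ^ ((c + i) % (2 * n))))
      (((x i : ℝ) + x' i * goldenRatio) * ((ε' i : ℝ) * goldenConj ^ ((c + (2 * n - 1) * i) % (2 * n))))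
    have t2 : |(x i : ℝ) + x' i * goldenRatio| ≤ |(x i : ℝ)| + 2 * |(x' i : ℝ)| := by
      refine (abs_add_le _ _).trans ?_
      rw [abs_mul, abs_of_pos goldenRatio_pos]
      nlinarith [abs_nonneg (x' i : ℝ), goldenRatio_lt_two]
    have t3 : |(x i : ℝ) + x' i * goldenConj| ≤ |(x i : ℝ)| + 2 * |(x' i : ℝ)| := by
      refine (abs_add_le _ _).trans ?_
      rw [abs_mul, abs_of_neg goldenConj_neg]
      nlinarith [abs_nonneg (x' i : ℝ), neg_one_lt_goldenConj]
    rw [abs_mul, abs_mul, abs_mul, abs_mul, sign_abs (hε i), sign_abs (hε' i), one_mul, one_mul,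
      abs_pow, abs_pow] at t1
    refine t1.trans ?_
    rw [mul_add]
    exact add_le_add (mul_le_mul_of_nonneg_right t3 (pow_nonneg (abs_nonneg _) _))
      (mul_le_mul_of_nonneg_right t2 (pow_nonneg (abs_nonneg _) _))
  rw [← hd]
  exact hler.trans (mul_le_mul b1 b2 (abs_nonneg _) ((abs_nonneg _).trans b1))

/-- a rotation such that no point is in a given window -/
lemma exists_rotation {n l : ℕ} (hl : l ≤ 2 * n) (S : Finset ℕ) (h : S.card * l < n) :
    ∃ c, c < 2 * n ∧ ∀ i ∈ S, (c + i) % (2 * n) < 2 * n - l ∧ (c + (2 * n - 1) * i) % (2 * n) < 2 * n - l := by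
  classical
  have hn : 0 < 2 * n := by
    have : 0 < n := lt_of_le_of_lt (Nat.zero_le _) h
    omega
  have hcard : ∀ u : ℕ, ((range (2 * n)).filter (fun c => ¬ (c + u) % (2 * n) < 2 * n - l)).card ≤ l := by
    intro u
    have : ((range (2 * n)).filter (fun c => ¬ (c + u) % (2 * n) < 2 * n - l)).card ≤ (Ico (2 * n - l) (2 * n)).card := by
      apply card_le_card_of_injOn (fun c => (c + u) % (2 * n))
      · intro c hc
        have hc := (mem_filter.1 (mem_coe.1 hc)).2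
        simp only [coe_Ico, Set.mem_Ico]
        exact ⟨by omega, Nat.mod_lt _ hn⟩
      · intro a ha b hb hab
        have ha := mem_range.1 (mem_filter.1 (mem_coe.1 ha)).1
        have hb := mem_range.1 (mem_filter.1 (mem_coe.1 hb)).1
        have h1 : a + u ≡ b + u [MOD 2 * n] := hab
        have h2 : a ≡ b [MOD 2 * n] := Nat.ModEq.add_right_cancel' u h1
        have h3 : a % (2 * n) = b % (2 * n) := h2
        rwa [Nat.mod_eq_of_lt ha, Nat.mod_eq_of_lt hb] at h3
    rw [Nat.card_Ico] at this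
    omega
  by_contra hcon
  push Not at hcon
  have hsub : range (2 * n) ⊆ S.biUnion (fun i => (range (2 * n)).filter (fun c => ¬ (c + i) % (2 * n) < 2 * n - l) ∪
      (range (2 * n)).filter (fun c => ¬ (c + (2 * n - 1) * i) % (2 * n) < 2 * n - l)) := by
    intro c hc
    obtain ⟨i, hi, hi2⟩ := hcon c (mem_range.1 hc)
    refine mem_biUnion.2 ⟨i, hi, ?_⟩
    by_cases h1 : (c + i) % (2 * n) < 2 * n - l
    · exact mem_union_right _ (mem_filter.2 ⟨hc, not_lt.2 (hi2 h1)⟩)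
    · exact mem_union_left _ (mem_filter.2 ⟨hc, h1⟩)
  have h1 := card_le_card hsub
  rw [card_range] at h1
  have h2 : (S.biUnion (fun i => (range (2 * n)).filter (fun c => ¬ (c + i) % (2 * n) < 2 * n - l) ∪
      (range (2 * n)).filter (fun c => ¬ (c + (2 * n - 1) * i) % (2 * n) < 2 * n - l))).card ≤ S.card * (l + l) := by
    refine card_biUnion_le_card_mul _ _ _ fun i _ => ?_
    exact (card_union_le _ _).trans (add_le_add (hcard _) (hcard _))
  have h3 : S.card * (l + l) = 2 * (S.card * l) := by ring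
  omega

end Pool.Agent.Run7.h166.FC
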