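import Mathlib

/-!
# Fibonacci and Lucas numbers in `ℤ[φ]`

If `M = F_n` or `M = L_n` then `φ ^ (2 n) ≡ ± 1` modulo `M`; so the powers of `φ` which occur in a sum of Fibonacci
numbers can be rotated, and the norm of the rotated element bounds the common divisors.
-/

set_option autoImplicit false
set_option maxHeartbeats 4000000

open Finset Real

namespace Pool.Agent.Run7.h166.FC

/-- `ℤ[φ]` -/
abbrev R := QuadraticAlgebra ℤ 1 1

/-- `φ` -/
def om : R := ⟨0, 1⟩

/-- `ψ` -/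
def om' : R := ⟨1, -1⟩

lemma om_sq : om ^ 2 = om + 1 := by
  rw [sq]; unfold om; ext <;> simp [QuadraticAlgebra.re_one, QuadraticAlgebra.im_one]

lemma om'_sq : om' ^ 2 = om' + 1 := by
  rw [sq]; unfold om'; ext <;> simp [QuadraticAlgebra.re_one, QuadraticAlgebra.im_one]

lemma om_add_om' : om + om' = 1 := by
  unfold om om'; ext <;> simp [QuadraticAlgebra.re_one, QuadraticAlgebra.im_one]

lemma om_mul_om' : om * om' = -1 := by
  unfold om om'; ext <;> simp [QuadraticAlgebra.re_one, QuadraticAlgebra.im_one]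

/-- evaluation -/
def ev (t : ℝ) (ht : t * t = t + 1) : R →+* ℝ where
  toFun z := z.re + z.im * t
  map_one' := by simp [QuadraticAlgebra.re_one, QuadraticAlgebra.im_one]
  map_zero' := by simp
  map_add' x y := by simp; ring
  map_mul' x y := by
    simp only [QuadraticAlgebra.re_mul, QuadraticAlgebra.im_mul]
    push_cast
    linear_combination (-(x.im : ℝ) * y.im) * ht

lemma phi_mul : goldenRatio * goldenRatio = goldenRatio + 1 := by
  rw [← sq, goldenRatio_sq]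

lemma psi_mul : goldenConj * goldenConj = goldenConj + 1 := by
  rw [← sq, goldenConj_sq]

/-- the first embedding -/
noncomputable def e1 : R →+* ℝ := ev goldenRatio phi_mul

/-- the second embedding -/
noncomputable def e2 : R →+* ℝ := ev goldenConj psi_mul

lemma e1_apply (z : R) : e1 z = z.re + z.im * goldenRatio := rfl

lemma e2_apply (z : R) : e2 z = z.re + z.im * goldenConj := rfl

lemma e1_om : e1 om = goldenRatio := by rw [e1_apply]; simp [om]

lemma e2_om : e2 om = goldenConj := by rw [e2_apply]; simp [om]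

lemma e1_om' : e1 om' = goldenConj := by
  rw [e1_apply]; simp [om']
  linarith [goldenRatio_add_goldenConj]

lemma e2_om' : e2 om' = goldenRatio := by
  rw [e2_apply]; simp [om']
  linarith [goldenRatio_add_goldenConj]

/-- the norm -/
def nrm (z : R) : ℤ := z.re ^ 2 + z.re * z.im - z.im ^ 2

lemma nrm_eq (z : R) : (nrm z : ℝ) = e1 z * e2 z := by
  rw [e1_apply, e2_apply, nrm]
  push_cast
  have h1 := goldenRatio_mul_goldenConj
  have h2 := goldenRatio_add_goldenConj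
  linear_combination (-(z.im : ℝ) ^ 2) * h1 - ((z.re : ℝ) * z.im) * h2

lemma eq_zero_of_nrm {z : R} (h : nrm z = 0) : z = 0 := by
  have h0 : e1 z * e2 z = 0 := by rw [← nrm_eq, h]; simp
  have key : ∀ x : ℝ, Irrational x → (z.re : ℝ) + z.im * x = 0 → z = 0 := by
    intro x hx h1
    by_cases hB : z.im = 0
    · rw [hB] at h1
      simp at h1
      ext
      · exact_mod_cast h1
      · exact hB
    · exfalso
      apply hx
      refine ⟨-(z.re : ℚ) / z.im, ?_⟩
      have hB' : (z.im : ℝ) ≠ 0 := by exact_mod_cast hB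
      push_cast
      rw [div_eq_iff hB']
      linarith
  rcases mul_eq_zero.1 h0 with h1 | h1
  · exact key _ goldenRatio_irrational h1
  · exact key _ goldenConj_irrational h1

lemma dvd_iff' (d : ℤ) (z : R) : (d : R) ∣ z ↔ d ∣ z.re ∧ d ∣ z.im := by
  have : ((d : R)) = algebraMap ℤ R d := by simp
  rw [this, QuadraticAlgebra.algebraMap_dvd_iff]

lemma sq_dvd_nrm {d : ℤ} {z : R} (h : (d : R) ∣ z) : d ^ 2 ∣ nrm z := by
  obtain ⟨⟨a, ha⟩, ⟨b, hb⟩⟩ := (dvd_iff' d z).1 h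
  refine ⟨a ^ 2 + a * b - b ^ 2, ?_⟩
  rw [nrm, ha, hb]
  ring

/-- `√5` -/
def r5 : R := om - om'

lemma fibR (n : ℕ) : r5 * ((Nat.fib n : ℤ) : R) = om ^ n - om' ^ n := by
  induction n using Nat.strong_induction_on with
  | _ n ih =>
    match n with
    | 0 => simp
    | 1 => simp [r5]
    | n + 2 =>
      have h1 := ih n (by omega)
      have h2 := ih (n + 1) (by omega)
      rw [Nat.fib_add_two, pow_add om n 2, pow_add om' n 2, om_sq, om'_sq]
      push_cast at h1 h2 ⊢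
      rw [mul_add, h1, h2]
      ring

lemma lucR (n : ℕ) (hn : 0 < n) : (((Nat.fib (n - 1) + Nat.fib (n + 1) : ℕ) : ℤ) : R) = om ^ n + om' ^ n := by
  obtain ⟨m, rfl⟩ := Nat.exists_eq_add_of_lt hn
  simp only [zero_add, Nat.add_sub_cancel]
  induction m using Nat.strong_induction_on with
  | _ m ih =>
    match m with
    | 0 =>
      have h1 := om_add_om'
      simp only [zero_add, pow_one, Nat.fib_zero]
      rw [h1]
      norm_num
    | 1 =>
      have h1 := om_add_om'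
      rw [om_sq, om'_sq]
      have : Nat.fib (1 + 1 + 1) = 2 := rfl
      rw [this, Nat.fib_one]
      push_cast
      linear_combination -h1
    | m + 2 =>
      have h1 := ih m (by omega) (by omega)
      have h2 := ih (m + 1) (by omega) (by omega)
      rw [show m + 2 + 1 = (m + 1) + 2 by ring, pow_add om (m + 1) 2, pow_add om' (m + 1) 2, om_sq, om'_sq,
        Nat.fib_add_two (n := m), Nat.fib_add_two (n := m + 1 + 1)]
      push_cast at h1 h2 ⊢
      have e1 : (m + 1 + 1 : ℕ) = m + 2 := rfl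
      have : om ^ (m + 1) * (om + 1) + om' ^ (m + 1) * (om' + 1) =
        (om ^ (m + 1 + 1) + om' ^ (m + 1 + 1)) + (om ^ (m + 1) + om' ^ (m + 1)) := by ring
      rw [this, ← h1, ← h2]
      push_cast
      ring

lemma blockR (x x' : ℤ) (i : ℕ) :
    r5 * ((x * Nat.fib i + x' * Nat.fib (i + 1) : ℤ) : R) =
      ((x : R) + x' * om) * om ^ i - ((x : R) + x' * om') * om' ^ i := by
  have h1 := fibR i
  have h2 := fibR (i + 1)
  push_cast at h1 h2 ⊢
  have : r5 * ((x : R) * (Nat.fib i : R) + (x' : R) * (Nat.fib (i + 1) : R)) =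
    (x : R) * (r5 * (Nat.fib i : R)) + (x' : R) * (r5 * (Nat.fib (i + 1) : R)) := by ring
  rw [this, h1, h2]
  ring

/-- `M = F_n` or `M = L_n` -/
def IsFL (n M : ℕ) : Prop := M = Nat.fib n ∨ M = Nat.fib (n - 1) + Nat.fib (n + 1)

lemma exists_delta {n M : ℕ} (hn : 0 < n) (hM : IsFL n M) :
    ∃ δ : ℤ, (δ = 1 ∨ δ = -1) ∧ ((M : ℤ) : R) ∣ om ^ (2 * n) - (δ : R) := by
  have h0 : om ^ n * om' ^ n = (-1) ^ n := by rw [← mul_pow, om_mul_om']
  rcases hM with h | h
  · refine ⟨(-1) ^ n, neg_one_pow_eq_or ℤ n, ⟨r5 * om ^ n, ?_⟩⟩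
    have h1 := fibR n
    rw [h, two_mul, pow_add]
    calc om ^ n * om ^ n - (((-1) ^ n : ℤ) : R) = om ^ n * (om ^ n - om' ^ n) := by
          rw [mul_sub, h0]; push_cast; ring
      _ = om ^ n * (r5 * ((Nat.fib n : ℤ) : R)) := by rw [h1]
      _ = _ := by ring
  · refine ⟨-(-1) ^ n, ?_, ⟨om ^ n, ?_⟩⟩
    · rcases neg_one_pow_eq_or ℤ n with h1 | h1 <;> rw [h1] <;> simp
    · have h1 := lucR n hn
      rw [h, two_mul, pow_add, h1]
      calc om ^ n * om ^ n - ((-(-1) ^ n : ℤ) : R) = om ^ n * om ^ n + om ^ n * om' ^ n := by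
            rw [h0]; push_cast; ring
        _ = _ := by ring

lemma sign_pow {δ : ℤ} (h : δ = 1 ∨ δ = -1) (k : ℕ) : δ ^ k = 1 ∨ δ ^ k = -1 := by
  rcases h with h | h
  · left; rw [h, one_pow]
  · rw [h]; exact neg_one_pow_eq_or ℤ k

lemma sign_mul {a b : ℤ} (ha : a = 1 ∨ a = -1) (hb : b = 1 ∨ b = -1) : a * b = 1 ∨ a * b = -1 := by
  rcases ha with h | h <;> rcases hb with h' | h' <;> rw [h, h'] <;> simp

lemma red {n M : ℕ} (hn : 0 < n) (hM : IsFL n M) (u : ℕ) :
    ∃ ε : ℤ, (ε = 1 ∨ ε = -1) ∧ ((M : ℤ) : R) ∣ om ^ u - (ε : R) * om ^ (u % (2 * n)) := by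
  obtain ⟨δ, hδ, h⟩ := exists_delta hn hM
  refine ⟨δ ^ (u / (2 * n)), sign_pow hδ _, ?_⟩
  have e : om ^ u = (om ^ (2 * n)) ^ (u / (2 * n)) * om ^ (u % (2 * n)) := by
    rw [← pow_mul, ← pow_add, Nat.div_add_mod]
  rw [e]
  push_cast
  rw [← sub_mul]
  exact Dvd.dvd.mul_right (h.trans (sub_dvd_pow_sub_pow _ _ _)) _

lemma red' {n M : ℕ} (hn : 0 < n) (hM : IsFL n M) (c i : ℕ) :
    ∃ ε : ℤ, (ε = 1 ∨ ε = -1) ∧
      ((M : ℤ) : R) ∣ om ^ c * om' ^ i - (ε : R) * om ^ ((c + (2 * n - 1) * i) % (2 * n)) := by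
  obtain ⟨δ, hδ, h⟩ := exists_delta hn hM
  obtain ⟨ε, hε, h1⟩ := red hn hM (c + (2 * n - 1) * i)
  refine ⟨δ ^ i * (-1) ^ i * ε, sign_mul (sign_mul (sign_pow hδ _) (sign_pow (Or.inr rfl) _)) hε, ?_⟩
  have h2 : ((M : ℤ) : R) ∣ (om ^ (2 * n)) ^ i - (δ : R) ^ i := h.trans (sub_dvd_pow_sub_pow _ _ _)
  have h3 : (om ^ (2 * n)) ^ i * (om ^ c * om' ^ i) = (-1) ^ i * om ^ (c + (2 * n - 1) * i) := by
    obtain ⟨t, ht⟩ : ∃ t, 2 * n = t + 1 := ⟨2 * n - 1, by omega⟩
    rw [ht, Nat.add_sub_cancel, ← om_mul_om']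
    ring
  have hδ2 : (δ : R) ^ i * (δ : R) ^ i = 1 := by
    have : δ ^ i * δ ^ i = 1 := by
      rcases sign_pow hδ i with h | h <;> rw [h] <;> norm_num
    exact_mod_cast this
  have h4 : om ^ c * om' ^ i - ((δ ^ i * (-1) ^ i * ε : ℤ) : R) * om ^ ((c + (2 * n - 1) * i) % (2 * n)) =
      (δ : R) ^ i * (-1) ^ i * (om ^ (c + (2 * n - 1) * i) - (ε : R) * om ^ ((c + (2 * n - 1) * i) % (2 * n))) -
      (δ : R) ^ i * (((om ^ (2 * n)) ^ i - (δ : R) ^ i) * (om ^ c * om' ^ i)) := by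
    push_cast
    rw [sub_mul ((om ^ (2 * n)) ^ i), h3]
    calc _ = (δ : R) ^ i * (δ : R) ^ i * (om ^ c * om' ^ i) -
          (δ : R) ^ i * (-1) ^ i * (ε : R) * om ^ ((c + (2 * n - 1) * i) % (2 * n)) := by rw [hδ2, one_mul]
      _ = _ := by ring
  rw [h4]
  exact dvd_sub (Dvd.dvd.mul_left h1 _) (Dvd.dvd.mul_left (Dvd.dvd.mul_right h2 _) _)

end Pool.Agent.Run7.h166.FC
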