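import Pool.Agent.Run7.h166.FC.Norm

/-!
# The bound for `s` blocks, and its sharpness
-/

set_option autoImplicit false
set_option maxHeartbeats 4000000

open Finset Real

namespace Pool.Agent.Run7.h166.FC

lemma abs_psi_le : |goldenConj| ≤ 1 := by
  rw [abs_of_neg goldenConj_neg]; linarith [neg_one_lt_goldenConj]

/-- **The bound for `s` blocks.** -/
theorem partA {n M : ℕ} (hn : 0 < n) (hM : IsFL n M) (S : Finset ℕ) (x x' : ℕ → ℤ)
    (hnd : ¬ (M : ℤ) ∣ ∑ i ∈ S, (x i * Nat.fib i + x' i * Nat.fib (i + 1))) :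
    (Int.gcd M (∑ i ∈ S, (x i * Nat.fib i + x' i * Nat.fib (i + 1))) : ℝ) ≤
      2 * (∑ i ∈ S, (|(x i : ℝ)| + 2 * |(x' i : ℝ)|)) * goldenRatio ^ ((n : ℝ) - n / (2 * S.card)) := by
  have hs : 0 < S.card := by
    rw [card_pos]
    by_contra h
    rw [not_nonempty_iff_eq_empty] at h
    apply hnd
    rw [h]; simp
  obtain ⟨l, hl⟩ : ∃ l, l = (n - 1) / S.card := ⟨_, rfl⟩
  have hl1 : S.card * l < n := by
    have := Nat.mul_div_le (n - 1) S.card
    rw [← hl] at this
    omega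
  have hl2 : l ≤ n - 1 := by rw [hl]; exact Nat.div_le_self _ _
  obtain ⟨c, hc, hc2⟩ := exists_rotation (l := l) (by omega) S hl1
  have h1 := core hn hM S x x' c hnd
  set B : ℝ := ∑ i ∈ S, (|(x i : ℝ)| + 2 * |(x' i : ℝ)|) with hB
  have hB0 : 0 ≤ B := sum_nonneg fun i _ => by positivity
  have hφ1 : (1 : ℝ) ≤ goldenRatio := one_lt_goldenRatio.le
  have b1 : (∑ i ∈ S, (|(x i : ℝ)| + 2 * |(x' i : ℝ)|) *
        (goldenRatio ^ ((c + i) % (2 * n)) + goldenRatio ^ ((c + (2 * n - 1) * i) % (2 * n)))) ≤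
      B * (2 * goldenRatio ^ (2 * n - l - 1)) := by
    rw [hB, sum_mul]
    refine sum_le_sum fun i hi => mul_le_mul_of_nonneg_left ?_ (by positivity)
    have t1 : goldenRatio ^ ((c + i) % (2 * n)) ≤ goldenRatio ^ (2 * n - l - 1) :=
      pow_le_pow_right₀ hφ1 (by have := (hc2 i hi).1; omega)
    have t2 : goldenRatio ^ ((c + (2 * n - 1) * i) % (2 * n)) ≤ goldenRatio ^ (2 * n - l - 1) :=
      pow_le_pow_right₀ hφ1 (by have := (hc2 i hi).2; omega)
    linarith
  have b2 : (∑ i ∈ S, (|(x i : ℝ)| + 2 * |(x' i : ℝ)|) *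
        (|goldenConj| ^ ((c + i) % (2 * n)) + |goldenConj| ^ ((c + (2 * n - 1) * i) % (2 * n)))) ≤ B * 2 := by
    rw [hB, sum_mul]
    refine sum_le_sum fun i hi => mul_le_mul_of_nonneg_left ?_ (by positivity)
    have t1 := pow_le_one₀ (n := (c + i) % (2 * n)) (abs_nonneg goldenConj) abs_psi_le
    have t2 := pow_le_one₀ (n := (c + (2 * n - 1) * i) % (2 * n)) (abs_nonneg goldenConj) abs_psi_le
    linarith
  have h2 : (Int.gcd M (∑ i ∈ S, (x i * Nat.fib i + x' i * Nat.fib (i + 1))) : ℝ) ^ 2 ≤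
      (2 * B) ^ 2 * goldenRatio ^ (2 * n - l - 1) := by
    refine h1.trans ((mul_le_mul b1 b2 (sum_nonneg fun i _ => by positivity)
      (mul_nonneg hB0 (mul_nonneg zero_le_two (pow_pos goldenRatio_pos _).le))).trans (le_of_eq ?_))
    ring
  have h3 : goldenRatio ^ (2 * n - l - 1) ≤ (goldenRatio ^ ((n : ℝ) - n / (2 * S.card))) ^ 2 := by
    rw [← rpow_natCast, ← rpow_natCast, ← rpow_mul goldenRatio_pos.le]
    apply rpow_le_rpow_of_exponent_le hφ1
    have hs' : (0 : ℝ) < S.card := by exact_mod_cast hs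
    have e1 : ((2 * n - l - 1 : ℕ) : ℝ) = 2 * n - l - 1 := by
      have : 2 * n - l - 1 + (l + 1) = 2 * n := by omega
      have : ((2 * n - l - 1 : ℕ) : ℝ) + (l + 1) = 2 * n := by exact_mod_cast this
      linarith
    have e2 : (n : ℝ) ≤ (l + 1) * S.card := by
      have : n ≤ (l + 1) * S.card := by
        have := Nat.lt_mul_div_succ (n - 1) hs
        rw [← hl] at this
        have e : (l + 1) * S.card = S.card * (l + 1) := by ring
        rw [e]
        omega
      exact_mod_cast this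
    have e3 : (n : ℝ) / S.card ≤ l + 1 := by
      rw [div_le_iff₀ hs']; exact e2
    rw [e1]
    have e4 : ((n : ℝ) - n / (2 * S.card)) * ((2 : ℕ) : ℝ) = 2 * n - n / S.card := by
      push_cast
      field_simp
    rw [e4]
    linarith
  have h4 : (Int.gcd M (∑ i ∈ S, (x i * Nat.fib i + x' i * Nat.fib (i + 1))) : ℝ) ^ 2 ≤
      (2 * B * goldenRatio ^ ((n : ℝ) - n / (2 * S.card))) ^ 2 := by
    refine h2.trans ?_
    rw [mul_pow (2 * B) (goldenRatio ^ ((n : ℝ) - n / (2 * S.card))) 2]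
    exact mul_le_mul_of_nonneg_left h3 (sq_nonneg _)
  exact le_of_sq_le_sq h4 (mul_nonneg (mul_nonneg zero_le_two hB0) (rpow_nonneg goldenRatio_pos.le _))

lemma luc2R (k : ℕ) : ((-1 * (Nat.fib k : ℤ) + 2 * Nat.fib (k + 1) : ℤ) : R) = om ^ k + om' ^ k := by
  rcases Nat.eq_zero_or_pos k with h | h
  · rw [h]; norm_num
  · rw [← lucR k h]
    obtain ⟨m, rfl⟩ := Nat.exists_eq_add_of_lt h
    simp only [zero_add, Nat.add_sub_cancel]
    rw [Nat.fib_add_two (n := m)]
    push_cast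
    ring

lemma r5_cancel {z : ℤ} (h : r5 * (z : R) = 0) : z = 0 := by
  have := congrArg QuadraticAlgebra.re h
  simp [r5, om, om'] at this
  exact this

lemma fib_step (a m : ℕ) : (Nat.fib (a + 2 * m) : ℤ) =
    Nat.fib m * (-1 * (Nat.fib (a + m) : ℤ) + 2 * Nat.fib (a + m + 1)) + (-1) ^ m * Nat.fib a := by
  rw [← sub_eq_zero]
  apply r5_cancel
  have h1 := fibR (a + 2 * m)
  have h2 := fibR m
  have h3 := luc2R (a + m)
  have h4 := fibR a
  push_cast at h1 h2 h3 h4 ⊢
  have e : r5 * ((Nat.fib (a + 2 * m) : R) - ((Nat.fib m : R) *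
      (-1 * (Nat.fib (a + m) : R) + 2 * (Nat.fib (a + m + 1) : R)) + (-1) ^ m * (Nat.fib a : R))) =
      r5 * (Nat.fib (a + 2 * m) : R) - ((r5 * (Nat.fib m : R)) *
      (-1 * (Nat.fib (a + m) : R) + 2 * (Nat.fib (a + m + 1) : R)) + (-1) ^ m * (r5 * (Nat.fib a : R))) := by ring
  rw [e, h1, h2, h3, h4, ← om_mul_om']
  ring

lemma quotient (m : ℕ) (s : ℕ) : ∃ σ : ℕ → ℤ, (∀ j, σ j = 1 ∨ σ j = -1) ∧
    (Nat.fib (2 * s * m) : ℤ) = Nat.fib m *
      ∑ j ∈ range s, σ j * (-1 * (Nat.fib ((2 * j + 1) * m) : ℤ) + 2 * Nat.fib ((2 * j + 1) * m + 1)) := by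
  induction s with
  | zero => exact ⟨fun _ => 1, fun _ => Or.inl rfl, by simp⟩
  | succ s ih =>
    obtain ⟨σ, hσ, h⟩ := ih
    refine ⟨fun j => if j = s then 1 else (-1) ^ m * σ j, fun j => ?_, ?_⟩
    · by_cases hj : j = s
      · simp [hj]
      · simp only [hj, if_false]
        exact sign_mul (sign_pow (Or.inr rfl) _) (hσ j)
    · rw [sum_range_succ]
      beta_reduce
      rw [if_pos rfl, one_mul]
      have e0 : 2 * (s + 1) * m = 2 * s * m + 2 * m := by ring
      have e1 : (2 * s + 1) * m = 2 * s * m + m := by ring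
      rw [e0, e1, fib_step, mul_add, h]
      have e2 : ∑ j ∈ range s, (if j = s then 1 else (-1) ^ m * σ j) *
          (-1 * (Nat.fib ((2 * j + 1) * m) : ℤ) + 2 * Nat.fib ((2 * j + 1) * m + 1)) =
          (-1) ^ m * ∑ j ∈ range s, σ j * (-1 * (Nat.fib ((2 * j + 1) * m) : ℤ) + 2 * Nat.fib ((2 * j + 1) * m + 1)) := by
        rw [mul_sum]
        refine sum_congr rfl fun j hj => ?_
        rw [if_neg (by have := mem_range.1 hj; omega)]
        ring
      rw [e2]
      ring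

lemma golden_le_fib (n : ℕ) : goldenRatio ^ n ≤ Nat.fib (n + 2) := by
  induction n using Nat.strong_induction_on with
  | _ n ih =>
    match n with
    | 0 => simp
    | 1 =>
      have := goldenRatio_lt_two
      norm_num [Nat.fib]
      linarith
    | n + 2 =>
      have h1 := ih n (by omega)
      have h2 := ih (n + 1) (by omega)
      rw [Nat.fib_add_two (n := n + 2)]
      push_cast
      have h3 : goldenRatio ^ (n + 2) = goldenRatio ^ (n + 1) + goldenRatio ^ n := by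
        rw [pow_add, goldenRatio_sq]; ring
      rw [h3]
      linarith

lemma fib_le_golden (n : ℕ) : (Nat.fib (n + 1) : ℝ) ≤ goldenRatio ^ n := by
  induction n using Nat.strong_induction_on with
  | _ n ih =>
    match n with
    | 0 => simp
    | 1 =>
      have := one_lt_goldenRatio
      norm_num [Nat.fib]
      linarith
    | n + 2 =>
      have h1 := ih n (by omega)
      have h2 := ih (n + 1) (by omega)
      rw [Nat.fib_add_two (n := n + 1)]
      push_cast
      have h3 : goldenRatio ^ (n + 2) = goldenRatio ^ (n + 1) + goldenRatio ^ n := by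
        rw [pow_add, goldenRatio_sq]; ring
      rw [h3]
      linarith

/-- **The exponent is best possible.** -/
theorem partA' (s m : ℕ) (hs : 0 < s) (hm : 3 ≤ m) :
    ∃ (S : Finset ℕ) (x x' : ℕ → ℤ), S.card = s ∧ (∀ i ∈ S, |x i| = 1 ∧ |x' i| = 2) ∧
      (∀ i ∈ S, i < 2 * s * m) ∧
      ¬ (Nat.fib (2 * s * m) : ℤ) ∣ ∑ i ∈ S, (x i * Nat.fib i + x' i * Nat.fib (i + 1)) ∧
      goldenRatio ^ (2 * s * m - m - 1) ≤
        (Int.gcd (Nat.fib (2 * s * m)) (∑ i ∈ S, (x i * Nat.fib i + x' i * Nat.fib (i + 1))) : ℝ) := by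
  obtain ⟨σ, hσ, h⟩ := quotient m s
  have hinj : Function.Injective (fun j : ℕ => (2 * j + 1) * m) := by
    intro a b hab
    have := Nat.eq_of_mul_eq_mul_right (by omega : 0 < m) hab
    omega
  have hidx : ∀ j : ℕ, ((2 * j + 1) * m) / m / 2 = j := by
    intro j
    rw [Nat.mul_div_cancel _ (by omega : 0 < m)]
    omega
  have hsum : ∑ i ∈ (range s).image (fun j : ℕ => (2 * j + 1) * m),
      ((-1 * σ (i / m / 2)) * (Nat.fib i : ℤ) + (2 * σ (i / m / 2)) * Nat.fib (i + 1)) =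
      ∑ j ∈ range s, σ j * (-1 * (Nat.fib ((2 * j + 1) * m) : ℤ) + 2 * Nat.fib ((2 * j + 1) * m + 1)) := by
    rw [sum_image (fun a _ b _ hab => hinj hab)]
    refine sum_congr rfl fun j _ => ?_
    rw [hidx]
    ring
  refine ⟨(range s).image (fun j : ℕ => (2 * j + 1) * m), fun i => -1 * σ (i / m / 2), fun i => 2 * σ (i / m / 2),
    ?_, ?_, ?_, ?_⟩
  · rw [card_image_of_injective _ hinj, card_range]
  · intro i _
    beta_reduce
    rcases hσ (i / m / 2) with h1 | h1 <;> rw [h1] <;> norm_num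
  · intro i hi
    obtain ⟨j, hj, rfl⟩ := mem_image.1 hi
    have := mem_range.1 hj
    apply Nat.mul_lt_mul_of_pos_right _ (by omega)
    omega
  · rw [hsum]
    obtain ⟨N, hN⟩ : ∃ N : ℤ, N = ∑ j ∈ range s, σ j * (-1 * (Nat.fib ((2 * j + 1) * m) : ℤ) +
      2 * Nat.fib ((2 * j + 1) * m + 1)) := ⟨_, rfl⟩
    rw [← hN] at h ⊢
    have hFm : (2 : ℤ) ≤ Nat.fib m := by
      have : Nat.fib 3 ≤ Nat.fib m := Nat.fib_mono hm
      have e : Nat.fib 3 = 2 := rfl
      rw [e] at this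
      exact_mod_cast this
    have hn : 0 < 2 * s * m := by positivity
    have hFn : (0 : ℤ) < Nat.fib (2 * s * m) := by exact_mod_cast Nat.fib_pos.2 hn
    have hNpos : 0 < N := by
      by_contra hc
      push Not at hc
      nlinarith
    have hNd : N ∣ (Nat.fib (2 * s * m) : ℤ) := ⟨Nat.fib m, by rw [h]; ring⟩
    refine ⟨?_, ?_⟩
    · intro hd
      have := Int.le_of_dvd hNpos hd
      nlinarith
    · have hg : ((Int.gcd (Nat.fib (2 * s * m)) N : ℤ)) = N := Int.gcd_eq_right hNpos.le hNd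
      have hg2 : ((Int.gcd (Nat.fib (2 * s * m)) N : ℕ) : ℝ) = (N : ℝ) := by
        exact_mod_cast congrArg (fun z : ℤ => (z : ℝ)) hg
      rw [hg2]
      have hr : (Nat.fib (2 * s * m) : ℝ) = Nat.fib m * N := by exact_mod_cast h
      have hsm : m ≤ s * m := Nat.le_mul_of_pos_left m hs
      have h2sm : 2 * s * m = 2 * (s * m) := by ring
      obtain ⟨u, hu⟩ : ∃ u, 2 * s * m = u + 2 := ⟨2 * s * m - 2, by omega⟩
      obtain ⟨v, hv⟩ : ∃ v, m = v + 1 := ⟨m - 1, by omega⟩
      have t1 := golden_le_fib u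
      have t2 := fib_le_golden v
      rw [← hu, hr] at t1
      rw [← hv] at t2
      have e1 : u = v + (2 * s * m - m - 1) := by omega
      have hNr : (0 : ℝ) < N := by exact_mod_cast hNpos
      have t3 : goldenRatio ^ v * goldenRatio ^ (2 * s * m - m - 1) ≤ goldenRatio ^ v * N := by
        rw [← pow_add, ← e1]
        exact t1.trans (mul_le_mul_of_nonneg_right t2 hNr.le)
      exact le_of_mul_le_mul_left t3 (pow_pos goldenRatio_pos _)

end Pool.Agent.Run7.h166.FC
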