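import Pool.Agent.Run7.h166.FC.Sharp

/-!
# Windows without digits
-/

set_option autoImplicit false
set_option maxHeartbeats 4000000

open Finset Real

namespace Pool.Agent.Run7.h166.FC

lemma geom_phi (L : ℕ) : ∑ m ∈ range L, goldenRatio ^ m ≤ goldenRatio ^ (L + 1) := by
  induction L with
  | zero => simp; exact goldenRatio_pos.le
  | succ L ih =>
    rw [sum_range_succ]
    have h3 : goldenRatio ^ (L + 1 + 1) = goldenRatio ^ (L + 1) + goldenRatio ^ L := by
      rw [pow_add goldenRatio L 1, add_assoc, pow_add goldenRatio L 2, goldenRatio_sq]; ring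
    rw [h3]
    linarith

lemma geom_psi (L : ℕ) : ∑ m ∈ range L, |goldenConj| ^ m ≤ goldenRatio ^ 2 := by
  have hq : |goldenConj| = goldenRatio - 1 := by
    rw [abs_of_neg goldenConj_neg]; linarith [goldenRatio_add_goldenConj]
  have h0 : ∑ m ∈ range L, |goldenConj| ^ m = goldenRatio ^ 2 * (1 - |goldenConj| ^ L) := by
    induction L with
    | zero => simp
    | succ L ih =>
      rw [sum_range_succ, ih, pow_succ |goldenConj| L, hq]
      have h1 := goldenRatio_sq
      have h2 : goldenRatio ^ 2 * (goldenRatio - 1) = goldenRatio := by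
        have h3 : goldenRatio ^ 2 * (goldenRatio - 1) = goldenRatio * (goldenRatio ^ 2 - goldenRatio) := by ring
        rw [h3, h1]; ring
      have h4 : goldenRatio ^ 2 * (1 - (goldenRatio - 1) ^ L * (goldenRatio - 1)) =
          goldenRatio ^ 2 - (goldenRatio - 1) ^ L * (goldenRatio ^ 2 * (goldenRatio - 1)) := by ring
      rw [h4, h2, mul_sub, mul_one]
      linear_combination (-(goldenRatio - 1) ^ L) * h1
  rw [h0]
  have : 0 ≤ |goldenConj| ^ L := pow_nonneg (abs_nonneg _) _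
  nlinarith [pow_pos goldenRatio_pos 2]

lemma sum_inj_le (f : ℕ → ℕ) (S : Finset ℕ) (L : ℕ) (hinj : Set.InjOn f S) (hlt : ∀ i ∈ S, f i < L) (y : ℝ)
    (hy : 0 ≤ y) : ∑ i ∈ S, y ^ (f i) ≤ ∑ m ∈ range L, y ^ m := by
  rw [← sum_image (f := fun m => y ^ m) hinj]
  refine sum_le_sum_of_subset_of_nonneg ?_ (fun i _ _ => pow_nonneg hy _)
  intro m hm
  obtain ⟨i, hi, rfl⟩ := mem_image.1 hm
  exact mem_range.2 (hlt i hi)

lemma fib_le_of {n M : ℕ} (hM : IsFL n M) : Nat.fib n ≤ M := by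
  rcases hM with h | h
  · exact h.ge
  · rw [h]
    exact (Nat.fib_le_fib_succ).trans (Nat.le_add_left _ _)

lemma two_le_of {n M : ℕ} (hn : 0 < n) (hM : IsFL n M) {N : ℤ} (hnd : ¬ (M : ℤ) ∣ N) : 2 ≤ n := by
  by_contra h
  have h1 : n = 1 := by omega
  subst h1
  apply hnd
  have : M = 1 := by rcases hM with h | h <;> rw [h] <;> rfl
  rw [this]
  exact one_dvd _

lemma phi_nine : 4 * goldenRatio ^ 9 ≤ 305 := by
  have h1 := goldenRatio_sq
  have h9 : goldenRatio ^ 9 = 34 * goldenRatio + 21 := by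
    have h2 : goldenRatio ^ 4 = 3 * goldenRatio + 2 := by
      have : goldenRatio ^ 4 = (goldenRatio ^ 2) ^ 2 := by ring
      rw [this, h1]
      nlinarith [h1]
    have h3 : goldenRatio ^ 8 = 21 * goldenRatio + 13 := by
      have : goldenRatio ^ 8 = (goldenRatio ^ 4) ^ 2 := by ring
      rw [this, h2]
      nlinarith [h1]
    have : goldenRatio ^ 9 = goldenRatio ^ 8 * goldenRatio := by ring
    rw [this, h3]
    nlinarith [h1]
  rw [h9]
  have h5 : goldenRatio ≤ 1.6185 := by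
    by_contra hc
    push Not at hc
    nlinarith [h1]
  linarith

/-- **Windows without digits.** -/
theorem partB {n M : ℕ} (hn : 0 < n) (hM : IsFL n M) (S : Finset ℕ) (hS : ∀ i ∈ S, i ≤ n + 1) (x : ℕ → ℤ)
    (B : ℝ) (hx : ∀ i ∈ S, |(x i : ℝ)| ≤ B) (k l : ℕ) (hkl : k + l ≤ n + 1)
    (hgap : ∀ i ∈ S, i < k ∨ k + l ≤ i) (hnd : ¬ (M : ℤ) ∣ ∑ i ∈ S, x i * Nat.fib i) :
    goldenRatio ^ l * (Int.gcd M (∑ i ∈ S, x i * Nat.fib i) : ℝ) ^ 2 ≤ 305 * B ^ 2 * (M : ℝ) ^ 2 := by
  have hn2 : 2 ≤ n := two_le_of hn hM hnd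
  have hsum : ∑ i ∈ S, x i * (Nat.fib i : ℤ) =
      ∑ i ∈ S, (x i * (Nat.fib i : ℤ) + (fun _ => (0 : ℤ)) i * Nat.fib (i + 1)) := by
    refine sum_congr rfl fun i _ => ?_
    simp
  obtain ⟨l', hl'⟩ : ∃ l', l' = l - 2 := ⟨_, rfl⟩
  obtain ⟨c, hc⟩ : ∃ c, c = 2 * n - (k + l') := ⟨_, rfl⟩
  have h1 := core hn hM S x (fun _ => 0) c (by rw [← hsum]; exact hnd)
  rw [← hsum] at h1
  have hSne : S.Nonempty := by
    by_contra h
    rw [not_nonempty_iff_eq_empty] at h
    apply hnd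
    rw [h]; simp
  have hB0 : 0 ≤ B := by
    obtain ⟨i, hi⟩ := hSne
    exact (abs_nonneg _).trans (hx i hi)
  have e0 : ∀ i, |(x i : ℝ)| + 2 * |(((fun _ => 0 : ℕ → ℤ) i : ℤ) : ℝ)| = |(x i : ℝ)| := by
    intro i; simp
  simp only [e0] at h1
  -- the points
  have hrot : ∀ i ∈ S, (c + (2 * n - 1) * i) % (2 * n) < 2 * n - l' ∧ (c + i) % (2 * n) < 2 * n - l' := by
    intro i hi
    rcases Nat.eq_zero_or_pos l' with h0 | h0
    · rw [h0, Nat.sub_zero]
      exact ⟨Nat.mod_lt _ (by omega), Nat.mod_lt _ (by omega)⟩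
    · have hi1 := hS i hi
      have hi2 := hgap i hi
      have hic : i ≤ c := by omega
      have e1 : c + (2 * n - 1) * i = (c - i) + 2 * n * i := by
        obtain ⟨t, ht⟩ : ∃ t, 2 * n = t + 1 := ⟨2 * n - 1, by omega⟩
        rw [ht, Nat.add_sub_cancel]
        have : (t + 1) * i = t * i + i := by ring
        rw [this]
        omega
      have e2 : (c + (2 * n - 1) * i) % (2 * n) = c - i := by
        rw [e1, Nat.add_mul_mod_self_left, Nat.mod_eq_of_lt (by omega)]
      constructor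
      · rw [e2]; omega
      · rcases hi2 with h2 | h2
        · rw [Nat.mod_eq_of_lt (by omega)]; omega
        · have : c + i = (i - (k + l')) + 2 * n := by omega
          rw [this, Nat.add_mod_right, Nat.mod_eq_of_lt (by omega)]
          omega
  have hinj1 : Set.InjOn (fun i => (c + i) % (2 * n)) S := by
    intro a ha b hb hab
    have ha := hS a ha
    have hb := hS b hb
    have h1 : c + a ≡ c + b [MOD 2 * n] := hab
    have h2 : a ≡ b [MOD 2 * n] := Nat.ModEq.add_left_cancel' c h1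
    have h3 : a % (2 * n) = b % (2 * n) := h2
    rwa [Nat.mod_eq_of_lt (by omega), Nat.mod_eq_of_lt (by omega)] at h3
  have hinj2 : Set.InjOn (fun i => (c + (2 * n - 1) * i) % (2 * n)) S := by
    intro a ha b hb hab
    have ha := hS a ha
    have hb := hS b hb
    have h1 : c + (2 * n - 1) * a ≡ c + (2 * n - 1) * b [MOD 2 * n] := hab
    have h2 : (2 * n - 1) * a ≡ (2 * n - 1) * b [MOD 2 * n] := Nat.ModEq.add_left_cancel' c h1
    have hcop : Nat.gcd (2 * n) (2 * n - 1) = 1 := by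
      obtain ⟨t, ht⟩ : ∃ t, 2 * n = t + 1 := ⟨2 * n - 1, by omega⟩
      rw [ht, Nat.add_sub_cancel]
      simp
    have h4 : a ≡ b [MOD 2 * n] := Nat.ModEq.cancel_left_of_coprime hcop h2
    have h3 : a % (2 * n) = b % (2 * n) := h4
    rwa [Nat.mod_eq_of_lt (by omega), Nat.mod_eq_of_lt (by omega)] at h3
  have hgen : ∀ y : ℝ, 0 ≤ y → ∑ i ∈ S, |(x i : ℝ)| * (y ^ ((c + i) % (2 * n)) + y ^ ((c + (2 * n - 1) * i) % (2 * n))) ≤
      2 * B * ∑ m ∈ range (2 * n - l'), y ^ m := by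
    intro y hy
    have t1 := sum_inj_le _ S (2 * n - l') hinj1 (fun i hi => (hrot i hi).2) y hy
    have t2 := sum_inj_le _ S (2 * n - l') hinj2 (fun i hi => (hrot i hi).1) y hy
    calc ∑ i ∈ S, |(x i : ℝ)| * (y ^ ((c + i) % (2 * n)) + y ^ ((c + (2 * n - 1) * i) % (2 * n))) ≤
        ∑ i ∈ S, B * (y ^ ((c + i) % (2 * n)) + y ^ ((c + (2 * n - 1) * i) % (2 * n))) :=
          sum_le_sum fun i hi => mul_le_mul_of_nonneg_right (hx i hi) (by positivity)
      _ = B * (∑ i ∈ S, y ^ ((c + i) % (2 * n)) + ∑ i ∈ S, y ^ ((c + (2 * n - 1) * i) % (2 * n))) := by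
          rw [← mul_sum, sum_add_distrib]
      _ ≤ B * (∑ m ∈ range (2 * n - l'), y ^ m + ∑ m ∈ range (2 * n - l'), y ^ m) :=
          mul_le_mul_of_nonneg_left (add_le_add t1 t2) hB0
      _ = _ := by ring
  have b1 := (hgen goldenRatio goldenRatio_pos.le).trans
    (mul_le_mul_of_nonneg_left (geom_phi (2 * n - l')) (mul_nonneg zero_le_two hB0))
  have b2 := (hgen |goldenConj| (abs_nonneg _)).trans
    (mul_le_mul_of_nonneg_left (geom_psi (2 * n - l')) (mul_nonneg zero_le_two hB0))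
  have h2 := h1.trans (mul_le_mul b1 b2 (sum_nonneg fun i _ => by positivity)
    (mul_nonneg (mul_nonneg zero_le_two hB0) (pow_pos goldenRatio_pos _).le))
  have hφ1 : (1 : ℝ) ≤ goldenRatio := one_lt_goldenRatio.le
  have h3 : goldenRatio ^ l ≤ goldenRatio ^ (l' + 2) := pow_le_pow_right₀ hφ1 (by omega)
  have hMr : goldenRatio ^ (n - 2) ≤ (M : ℝ) := by
    have t := golden_le_fib (n - 2)
    rw [Nat.sub_add_cancel hn2] at t
    exact t.trans (by exact_mod_cast fib_le_of hM)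
  have hMr2 : goldenRatio ^ (2 * n - 4) ≤ (M : ℝ) ^ 2 := by
    have e : 2 * n - 4 = (n - 2) * 2 := by omega
    rw [e, pow_mul]
    exact pow_le_pow_left₀ (pow_pos goldenRatio_pos _).le hMr 2
  calc goldenRatio ^ l * (Int.gcd M (∑ i ∈ S, x i * Nat.fib i) : ℝ) ^ 2 ≤
      goldenRatio ^ (l' + 2) * (2 * B * goldenRatio ^ (2 * n - l' + 1) * (2 * B * goldenRatio ^ 2)) :=
        mul_le_mul h3 h2 (sq_nonneg _) (pow_pos goldenRatio_pos _).le
    _ = 4 * B ^ 2 * (goldenRatio ^ (l' + 2) * goldenRatio ^ (2 * n - l' + 1) * goldenRatio ^ 2) := by ring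
    _ = 4 * B ^ 2 * (goldenRatio ^ 9 * goldenRatio ^ (2 * n - 4)) := by
        rw [← pow_add, ← pow_add, ← pow_add]
        congr 2
        omega
    _ = (4 * goldenRatio ^ 9) * B ^ 2 * goldenRatio ^ (2 * n - 4) := by ring
    _ ≤ 305 * B ^ 2 * (M : ℝ) ^ 2 :=
        mul_le_mul (mul_le_mul_of_nonneg_right phi_nine (sq_nonneg _)) hMr2 (pow_pos goldenRatio_pos _).le
          (by positivity)

lemma zeck_nodup (N : ℕ) : N.zeckendorf.Nodup := by
  have h1 := Nat.isZeckendorfRep_zeckendorf N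
  have h2 : (N.zeckendorf ++ [0]).Pairwise (fun a b => b + 2 ≤ a) := by
    have : IsTrans ℕ (fun a b => b + 2 ≤ a) := ⟨fun a b c h1 h2 => by omega⟩
    exact List.isChain_iff_pairwise.1 h1
  exact (List.pairwise_append.1 h2).1.imp (fun h => by omega)

lemma zeck_sum (N : ℕ) : ∑ i ∈ N.zeckendorf.toFinset, Nat.fib i = N := by
  rw [List.sum_toFinset _ (zeck_nodup N), Nat.sum_zeckendorf_fib]

lemma zeck_le {n M N : ℕ} (hn : 0 < n) (hM : IsFL n M) (hN : N < M) : ∀ i ∈ N.zeckendorf, i ≤ n + 1 := by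
  intro i hi
  by_contra h
  push Not at h
  have h1 : Nat.fib i ≤ N := by
    have := Finset.single_le_sum (f := fun i => Nat.fib i) (fun _ _ => Nat.zero_le _) (List.mem_toFinset.2 hi)
    rw [zeck_sum] at this
    exact this
  have h2 : Nat.fib (n + 2) ≤ Nat.fib i := Nat.fib_mono (by omega)
  have h3 : M ≤ Nat.fib (n + 2) := by
    rw [Nat.fib_add_two]
    rcases hM with h | h
    · rw [h]; exact Nat.le_add_right _ _
    · rw [h]
      exact Nat.add_le_add_right (Nat.fib_mono (by omega)) _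
  omega

/-- Zeckendorf digits: windows -/
theorem partC1 {n M : ℕ} (hn : 0 < n) (hM : IsFL n M) (N : ℕ) (hN0 : 0 < N) (hNM : N < M) (k l : ℕ)
    (hkl : k + l ≤ n + 1) (hgap : ∀ i ∈ N.zeckendorf, i < k ∨ k + l ≤ i) :
    goldenRatio ^ l * (Nat.gcd M N : ℝ) ^ 2 ≤ 305 * (M : ℝ) ^ 2 := by
  have hsum : ∑ i ∈ N.zeckendorf.toFinset, (fun _ => (1 : ℤ)) i * (Nat.fib i : ℤ) = N := by
    conv_rhs => rw [← zeck_sum N]
    push_cast
    exact sum_congr rfl fun i _ => by ring
  have hnd : ¬ (M : ℤ) ∣ ∑ i ∈ N.zeckendorf.toFinset, (fun _ => (1 : ℤ)) i * (Nat.fib i : ℤ) := by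
    rw [hsum]
    intro h
    have := Nat.le_of_dvd hN0 (by exact_mod_cast h)
    omega
  have h := partB hn hM N.zeckendorf.toFinset
    (fun i hi => zeck_le hn hM hNM i (List.mem_toFinset.1 hi)) (fun _ => 1) 1 (fun i _ => by simp) k l hkl
    (fun i hi => hgap i (List.mem_toFinset.1 hi)) hnd
  rw [hsum] at h
  have e : Int.gcd (M : ℤ) (N : ℤ) = Nat.gcd M N := Int.gcd_natCast_natCast M N
  rw [e] at h
  linarith

/-- Zeckendorf digits: number -/
theorem partC2 {n M : ℕ} (hn : 0 < n) (hM : IsFL n M) (N : ℕ) (hN0 : 0 < N) (hNM : N < M) :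
    goldenRatio ^ ((n + 1) / (N.zeckendorf.length + 1)) * (Nat.gcd M N : ℝ) ^ 2 ≤ 305 * (M : ℝ) ^ 2 := by
  obtain ⟨l, hl⟩ : ∃ l, l = (n + 1) / (N.zeckendorf.length + 1) := ⟨_, rfl⟩
  rw [← hl]
  have hll : (N.zeckendorf.length + 1) * l ≤ n + 1 := by rw [hl]; exact Nat.mul_div_le _ _
  rcases Nat.eq_zero_or_pos l with h0 | h0
  · rw [h0]
    refine partC1 hn hM N hN0 hNM 0 0 (by omega) (fun i _ => Or.inr (by omega))
  · obtain ⟨j, hj, hj2⟩ : ∃ j ∈ range (N.zeckendorf.length + 1), j ∉ N.zeckendorf.toFinset.image (fun i => i / l) := by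
      by_contra hcon
      push Not at hcon
      have h1 := card_le_card (show range (N.zeckendorf.length + 1) ⊆ _ from hcon)
      rw [card_range] at h1
      have h2 := (card_image_le (s := N.zeckendorf.toFinset) (f := fun i => i / l)).trans
        (List.toFinset_card_le _)
      omega
    have hj1 := mem_range.1 hj
    refine partC1 hn hM N hN0 hNM (j * l) l ?_ ?_
    · have : (j + 1) * l ≤ (N.zeckendorf.length + 1) * l := Nat.mul_le_mul_right _ (by omega)
      have e : (j + 1) * l = j * l + l := by ring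
      omega
    · intro i hi
      have hne : i / l ≠ j := fun h => hj2 (mem_image.2 ⟨i, List.mem_toFinset.2 hi, h⟩)
      rcases Nat.lt_or_gt_of_ne hne with h | h
      · left
        rwa [Nat.div_lt_iff_lt_mul h0] at h
      · right
        have h' : j + 1 ≤ i / l := h
        rw [Nat.le_div_iff_mul_le h0] at h'
        have e : (j + 1) * l = j * l + l := by ring
        omega

end Pool.Agent.Run7.h166.FC
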